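import Pool.Agent.H.MP_9da05b_an.D

namespace Pool.Agent.H.MP_9da05b_an
open Set Filter Topology MeasureTheory

noncomputable def K : ℝ := Real.exp 2000

theorem K_ge : 2001 ≤ K := by
  have := Real.add_one_le_exp (2000 : ℝ)
  unfold K; linarith

noncomputable def I (x : X) : ℝ := ∫ s in (-1 : ℝ)..0, Real.exp (-2000 * s) * (ev x s) ^ 4

noncomputable def w (a : ℝ) : ℝ := Real.smoothTransition (2 * a - 1)

noncomputable def V0 (x : X) : ℝ := (ev x 0) ^ 2 + w (ev x 0) * I x

noncomputable def V (x : X) : ℝ := Real.log (1 + V0 x)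

noncomputable def G (a c i n v : ℝ) : ℝ :=
  -(a + a ^ 3) - 2001 * w a * i + max (a - 1) 0 *
    ((K * c ^ 4 + max v 0 * (1 + a ^ 2 + i)) / (2 * (1 + a ^ 2)) - max (-v) 0 * (K * (1 + n ^ 4)))

noncomputable def f (x : X) (v : ℝ) : ℝ := G (ev x 0) (ev x (-1)) (I x) ‖x‖ v

noncomputable def E (x : X) (p : ℝ) : ℝ :=
  ((2 * ev x 0 + deriv w (ev x 0) * I x) * p +
    w (ev x 0) * (2000 * I x + (ev x 0) ^ 4 - K * (ev x (-1)) ^ 4)) / (1 + V0 x)

theorem ev_seg (y : C(ℝ, ℝ)) (t s : ℝ) (hs : s ∈ Icc (-1 : ℝ) 0) : ev (seg y t) s = y (t + s) := by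
  simp [ev, seg, projIcc_of_mem _ hs]

theorem ev_seg0 (y : C(ℝ, ℝ)) (t : ℝ) : ev (seg y t) 0 = y t := by
  rw [ev_seg y t 0 (by norm_num)]; simp

theorem ev_seg1 (y : C(ℝ, ℝ)) (t : ℝ) : ev (seg y t) (-1) = y (t - 1) := by
  rw [ev_seg y t (-1) (by norm_num)]; rfl

theorem abs_ev_le (x : X) (s : ℝ) : |ev x s| ≤ ‖x‖ := by
  simpa [ev] using x.norm_coe_le_norm _

theorem ev_sub (x x' : X) (s : ℝ) : ev (x - x') s = ev x s - ev x' s := by simp [ev]

theorem I_nonneg (x : X) : 0 ≤ I x :=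
  intervalIntegral.integral_nonneg (by norm_num) fun s _ => by positivity

theorem w_nonneg (a : ℝ) : 0 ≤ w a := Real.smoothTransition.nonneg _
theorem w_le_one (a : ℝ) : w a ≤ 1 := Real.smoothTransition.le_one _
theorem w_zero {a : ℝ} (h : a ≤ 1 / 2) : w a = 0 :=
  Real.smoothTransition.zero_of_nonpos (by linarith)
theorem w_one {a : ℝ} (h : 1 ≤ a) : w a = 1 :=
  Real.smoothTransition.one_of_one_le (by linarith)
theorem w_contDiff : ContDiff ℝ 1 w := by
  unfold w
  exact (Real.smoothTransition.contDiff (n := 1)).comp (by fun_prop)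
theorem w_mono : Monotone w := fun a b h =>
  Real.smoothTransition.monotone (by linarith)
theorem dw_nonneg (a : ℝ) : 0 ≤ deriv w a := w_mono.deriv_nonneg
theorem dw_zero_lo {a : ℝ} (h : a < 1 / 2) : deriv w a = 0 := by
  have : w =ᶠ[𝓝 a] fun _ => 0 := by
    filter_upwards [Iio_mem_nhds h] with b hb using w_zero (le_of_lt hb)
  rw [this.deriv_eq]; simp
theorem dw_zero_hi {a : ℝ} (h : 1 < a) : deriv w a = 0 := by
  have : w =ᶠ[𝓝 a] fun _ => 1 := by
    filter_upwards [Ioi_mem_nhds h] with b hb using w_one (le_of_lt hb)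
  rw [this.deriv_eq]; simp

theorem V0_nonneg (x : X) : 0 ≤ V0 x := by
  have := w_nonneg (ev x 0); have := I_nonneg x
  unfold V0; positivity

theorem exp_le_K {s : ℝ} (hs : s ∈ Icc (-1 : ℝ) 0) : Real.exp (-2000 * s) ≤ K := by
  unfold K; apply Real.exp_le_exp.2; linarith [hs.1]

theorem I_int (x : X) (a b : ℝ) :
    IntervalIntegrable (fun s => Real.exp (-2000 * s) * (ev x s) ^ 4) volume a b := by
  have := cont_ev x
  apply Continuous.intervalIntegrable; fun_prop

theorem I_le (x : X) : I x ≤ K * ‖x‖ ^ 4 := by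
  have h := intervalIntegral.integral_mono_on (μ := volume) (by norm_num : (-1 : ℝ) ≤ 0)
    (I_int x (-1) 0) (intervalIntegrable_const (c := K * ‖x‖ ^ 4)) (fun s hs => by
      have h1 := exp_le_K hs
      have h2 : (ev x s) ^ 4 ≤ ‖x‖ ^ 4 := by
        have := pow_le_pow_left₀ (abs_nonneg _) (abs_ev_le x s) 4
        rwa [Even.pow_abs (by decide)] at this
      have : 0 ≤ (ev x s) ^ 4 := by positivity
      have := K_ge
      exact mul_le_mul h1 h2 (by positivity) (by linarith))
  simpa [I] using h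

theorem I_lip (R : ℝ) (x x' : X) (hx : ‖x‖ ≤ R) (hx' : ‖x'‖ ≤ R) :
    |I x - I x'| ≤ K * (4 * R ^ 3) * ‖x - x'‖ := by
  have hR : 0 ≤ R := (norm_nonneg _).trans hx
  unfold I
  rw [← intervalIntegral.integral_sub (I_int x _ _) (I_int x' _ _)]
  have h := intervalIntegral.norm_integral_le_of_norm_le_const (a := (-1 : ℝ)) (b := 0)
    (f := fun s => Real.exp (-2000 * s) * (ev x s) ^ 4 - Real.exp (-2000 * s) * (ev x' s) ^ 4)
    (C := K * (4 * R ^ 3) * ‖x - x'‖) (fun s hs => by
      rw [uIoc_of_le (by norm_num)] at hs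
      have h1 := exp_le_K (Ioc_subset_Icc_self hs)
      have ha := (abs_ev_le x s).trans hx
      have hb := (abs_ev_le x' s).trans hx'
      have hd := abs_ev_le (x - x') s
      rw [ev_sub] at hd
      set a := ev x s
      set b := ev x' s
      have e : Real.exp (-2000 * s) * a ^ 4 - Real.exp (-2000 * s) * b ^ 4 =
          Real.exp (-2000 * s) * ((a + b) * (a ^ 2 + b ^ 2) * (a - b)) := by ring
      rw [Real.norm_eq_abs, e, abs_mul, abs_mul, abs_mul, abs_of_pos (Real.exp_pos _), mul_assoc K]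
      have h2 : |a + b| ≤ 2 * R := (abs_add_le _ _).trans (by linarith)
      have h3 : |a ^ 2 + b ^ 2| ≤ 2 * R ^ 2 := by
        rw [abs_of_nonneg (by positivity)]
        have := sq_le_sq' (abs_le.1 ha).1 (abs_le.1 ha).2
        have := sq_le_sq' (abs_le.1 hb).1 (abs_le.1 hb).2
        linarith
      have h4 : |a + b| * |a ^ 2 + b ^ 2| ≤ 4 * R ^ 3 := by
        calc _ ≤ (2 * R) * (2 * R ^ 2) := mul_le_mul h2 h3 (abs_nonneg _) (by positivity)
          _ = _ := by ring
      have := K_ge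
      exact mul_le_mul h1 (mul_le_mul h4 hd (abs_nonneg _) (by positivity)) (by positivity)
        (by linarith))
  simpa using h

theorem ev_lip (s : ℝ) : LipschitzWith 1 (fun x : X => ev x s) := by
  apply LipschitzWith.of_dist_le_mul
  intro x x'
  rw [Real.dist_eq, ← ev_sub, dist_eq_norm]
  simpa using abs_ev_le _ _

theorem I_cont : Continuous I := by
  rw [continuous_iff_continuousAt]
  intro x
  have hK := K_ge
  have h : LipschitzOnWith (Real.toNNReal (K * (4 * (‖x‖ + 1) ^ 3))) I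
      (Metric.closedBall (0 : X) (‖x‖ + 1)) := by
    apply LipschitzOnWith.of_dist_le_mul
    intro a ha b hb
    rw [Real.dist_eq, dist_eq_norm, Real.coe_toNNReal _ (by positivity)]
    exact I_lip _ _ _ (by simpa using ha) (by simpa using hb)
  apply h.continuousOn.continuousAt
  apply Metric.closedBall_mem_nhds_of_mem
  simp

theorem V0_cont : Continuous V0 := by
  have h1 := (ev_lip 0).continuous
  have h2 := I_cont
  have h3 := w_contDiff.continuous
  unfold V0; fun_prop

theorem V_cont : Continuous V := by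
  unfold V
  apply Continuous.log (continuous_const.add V0_cont)
  intro x; have := V0_nonneg x; simp only [Pi.add_apply]; positivity

theorem G_locLip : LocallyLipschitz
    (fun p : ℝ × ℝ × ℝ × ℝ × ℝ => G p.1 p.2.1 p.2.2.1 p.2.2.2.1 p.2.2.2.2) := by
  let H : (ℝ × ℝ × ℝ × ℝ × ℝ) × ℝ × ℝ × ℝ → ℝ := fun q =>
    -(q.1.1 + q.1.1 ^ 3) - 2001 * w q.1.1 * q.1.2.2.1 + q.2.1 *
    ((K * q.1.2.1 ^ 4 + q.2.2.1 * (1 + q.1.1 ^ 2 + q.1.2.2.1)) / (2 * (1 + q.1.1 ^ 2)) -
      q.2.2.2 * (K * (1 + q.1.2.2.2.1 ^ 4)))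
  have hH : ContDiff ℝ 1 H := by
    have := w_contDiff
    have h2 : ∀ q : (ℝ × ℝ × ℝ × ℝ × ℝ) × ℝ × ℝ × ℝ, 2 * (1 + q.1.1 ^ 2) ≠ 0 := fun q => by
      positivity
    unfold H
    fun_prop (disch := exact h2 _)
  have c1 : ContDiff ℝ 1 (fun p : ℝ × ℝ × ℝ × ℝ × ℝ => p.1 - 1) := by fun_prop
  have c2 : ContDiff ℝ 1 (fun p : ℝ × ℝ × ℝ × ℝ × ℝ => p.2.2.2.2) := by fun_prop
  have c3 : ContDiff ℝ 1 (fun p : ℝ × ℝ × ℝ × ℝ × ℝ => -p.2.2.2.2) := by fun_prop
  have hL := LocallyLipschitz.id.prodMk ((c1.locallyLipschitz.max_const 0).prodMk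
    ((c2.locallyLipschitz.max_const 0).prodMk (c3.locallyLipschitz.max_const 0)))
  exact hH.locallyLipschitz.comp hL

theorem f_cont : Continuous (fun p : X × ℝ => f p.1 p.2) := by
  have h1 := (ev_lip 0).continuous
  have h2 := (ev_lip (-1)).continuous
  have h3 := I_cont
  have h : Continuous fun p : X × ℝ => (ev p.1 0, ev p.1 (-1), I p.1, ‖p.1‖, p.2) := by fun_prop
  exact G_locLip.continuous.comp h

theorem f_adm : Admissible f := by
  refine ⟨f_cont, fun R => ?_, ?_⟩
  · obtain ⟨L, hL⟩ := (G_locLip.locallyLipschitzOn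
      (s := Metric.closedBall 0 (|R| + K * R ^ 4))).exists_lipschitzOnWith_of_compact
      (isCompact_closedBall _ _)
    refine ⟨L * (1 + K * (4 * R ^ 3)), fun x x' v hx hx' hv => ?_⟩
    have hR : 0 ≤ R := (norm_nonneg _).trans hx
    have hK := K_ge
    have mem : ∀ z : X, ‖z‖ ≤ R → (ev z 0, ev z (-1), I z, ‖z‖, v) ∈
        Metric.closedBall (0 : ℝ × ℝ × ℝ × ℝ × ℝ) (|R| + K * R ^ 4) := by
      intro z hz
      have h1 := abs_ev_le z 0
      have h2 := abs_ev_le z (-1)
      have h3 := I_le z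
      have h4 := I_nonneg z
      have h5 : K * ‖z‖ ^ 4 ≤ K * R ^ 4 := by gcongr
      have h6 : 0 ≤ K * R ^ 4 := by positivity
      simp only [mem_closedBall_zero_iff, Prod.norm_mk, Real.norm_eq_abs, abs_of_nonneg hR,
        abs_of_nonneg h4, abs_norm, max_le_iff]
      refine ⟨?_, ?_, ?_, ?_, ?_⟩ <;> linarith
    have h := hL.dist_le_mul _ (mem x hx) _ (mem x' hx')
    rw [Real.dist_eq] at h
    refine h.trans ?_
    rw [mul_assoc]
    apply mul_le_mul_of_nonneg_left _ L.2
    have h1 := abs_ev_le (x - x') 0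
    have h2 := abs_ev_le (x - x') (-1)
    rw [ev_sub] at h1 h2
    have h3 := I_lip R x x' hx hx'
    have h4 := abs_norm_sub_norm_le x x'
    have h5 : 0 ≤ K * (4 * R ^ 3) * ‖x - x'‖ := by positivity
    have h6 := norm_nonneg (x - x')
    simp only [Prod.dist_eq, Real.dist_eq, max_le_iff, sub_self, abs_zero]
    refine ⟨?_, ?_, ?_, ?_, ?_⟩ <;> nlinarith
  · have : ev 0 0 = 0 := by simp [ev]
    simp [f, G, this, w_zero]

theorem I_seg_deriv (y : C(ℝ, ℝ)) (t : ℝ) :
    HasDerivAt (fun τ => I (seg y τ))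
      (2000 * I (seg y t) + (y t) ^ 4 - K * (y (t - 1)) ^ 4) t := by
  let g : ℝ → ℝ := fun σ => Real.exp (-2000 * σ) * (y σ) ^ 4
  have hg : Continuous g := by unfold g; fun_prop
  let F : ℝ → ℝ := fun σ => ∫ s in (0 : ℝ)..σ, g s
  have hF : ∀ σ, HasDerivAt F (g σ) σ := fun σ =>
    intervalIntegral.integral_hasDerivAt_right (hg.intervalIntegrable _ _)
      (hg.stronglyMeasurableAtFilter _ _) hg.continuousAt
  have e : ∀ τ, I (seg y τ) = Real.exp (2000 * τ) * (F τ - F (τ - 1)) := by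
    intro τ
    have e1 : F τ - F (τ - 1) = ∫ s in (τ - 1)..τ, g s :=
      intervalIntegral.integral_interval_sub_left (hg.intervalIntegrable _ _)
        (hg.intervalIntegrable _ _)
    have e2 : ∫ s in (τ - 1)..τ, g s = ∫ s in (-1 : ℝ)..0, g (τ + s) := by
      rw [intervalIntegral.integral_comp_add_left g τ]; simp [sub_eq_add_neg]
    rw [e1, e2, ← intervalIntegral.integral_const_mul]
    unfold I
    apply intervalIntegral.integral_congr
    intro s hs
    rw [uIcc_of_le (by norm_num)] at hs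
    simp only [g]
    rw [ev_seg y τ s hs, ← mul_assoc, ← Real.exp_add]
    congr 2; ring
  have h1 : HasDerivAt (fun τ => Real.exp (2000 * τ)) (Real.exp (2000 * t) * 2000) t := by
    simpa using ((hasDerivAt_id t).const_mul 2000).exp
  have h2 : HasDerivAt (fun τ => F (τ - 1)) (g (t - 1)) t := by
    simpa using (hF (t - 1)).comp_sub_const t 1
  have h3 := h1.mul ((hF t).sub h2)
  have e3 : (fun τ => I (seg y τ)) = fun τ => Real.exp (2000 * τ) * (F τ - F (τ - 1)) := funext e
  rw [e3]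
  refine HasDerivAt.congr_deriv h3 (Eq.symm ?_)
  rw [e t]
  simp only [g, Pi.sub_apply]
  have a1 : Real.exp (2000 * t) * Real.exp (-2000 * t) = 1 := by
    rw [← Real.exp_add]; simp
  have a2 : Real.exp (2000 * t) * Real.exp (-2000 * (t - 1)) = K := by
    rw [← Real.exp_add]; unfold K; congr 1; ring
  rw [mul_sub (Real.exp (2000 * t)) (Real.exp (-2000 * t) * _), ← mul_assoc, ← mul_assoc,
    ← mul_assoc, a1, a2]
  ring

theorem keyDeriv (y : C(ℝ, ℝ)) (t p : ℝ) (hy : HasDerivWithinAt y p (Ici t) t) :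
    HasDerivWithinAt (fun τ => V (seg y τ)) (E (seg y t) p) (Ici t) t := by
  have hI := (I_seg_deriv y t).hasDerivWithinAt (s := Ici t)
  have hw : HasDerivWithinAt (fun τ => w (y τ)) (deriv w (y t) * p) (Ici t) t :=
    ((w_contDiff.differentiable (by norm_num)) (y t)).hasDerivAt.comp_hasDerivWithinAt t hy
  have h := (((hy.pow 2).add (hw.mul hI)).const_add 1).log (by
    have := w_nonneg (y t); have := I_nonneg (seg y t)
    simp only [Pi.add_apply, Pi.pow_apply, Pi.mul_apply]; positivity)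
  have e : (fun τ => V (seg y τ)) =
      fun τ => Real.log (1 + ((y τ) ^ 2 + w (y τ) * I (seg y τ))) := by
    funext τ; simp [V, V0, ev_seg0]
  rw [e]
  refine HasDerivWithinAt.congr_deriv h (Eq.symm ?_)
  simp only [E, V0, ev_seg0, ev_seg1, Pi.add_apply, Pi.pow_apply, Pi.mul_apply]
  congr 1
  simp; ring

theorem dini_eq {g : ℝ → ℝ} {d t : ℝ} (h : HasDerivWithinAt g d (Ici t) t) : dini g t = d := by
  have h1 : HasDerivWithinAt g d (Ioi t) t := h.mono Ioi_subset_Ici_self
  rw [hasDerivWithinAt_iff_tendsto_slope' (by simp)] at h1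
  have h2 : Tendsto (fun h : ℝ => t + h) (𝓝[>] 0) (𝓝[>] t) := by
    apply tendsto_nhdsWithin_of_tendsto_nhds_of_eventually_within
    · apply Tendsto.mono_left _ nhdsWithin_le_nhds
      have : Continuous fun h : ℝ => t + h := by fun_prop
      simpa using this.tendsto 0
    · filter_upwards [self_mem_nhdsWithin] with h hh
      simpa using hh
  have h3 := h1.comp h2
  apply Tendsto.limsup_eq
  apply (continuous_coe_real_ereal.tendsto d).comp
  refine h3.congr fun h => ?_
  simp [slope_def_field]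

noncomputable def ystar (x : X) (p : ℝ) : C(ℝ, ℝ) :=
  ⟨fun σ => ev x σ + max σ 0 * p, by have := cont_ev x; fun_prop⟩

theorem star_eq (x : X) (p h : ℝ) : star x p h = seg (ystar x p) h := by
  ext s; simp [star, seg, ystar, add_comm]

theorem seg_ystar0 (x : X) (p : ℝ) : seg (ystar x p) 0 = x := by
  ext s
  have := s.2.2
  simp [seg, ystar, ev, this]

theorem driver_eq (F : X → ℝ → ℝ) (x : X) (v : ℝ) : driver V F x v = E x (F x v) := by
  have h1 : HasDerivWithinAt (ystar x (F x v)) (F x v) (Ici 0) 0 := by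
    have h : HasDerivWithinAt (fun σ : ℝ => ev x 0 + σ * F x v) (F x v) (Ici 0) 0 := by
      simpa using (((hasDerivAt_id (0 : ℝ)).mul_const (F x v)).const_add (ev x 0)).hasDerivWithinAt
    have e : ∀ σ ∈ Ici (0 : ℝ), ystar x (F x v) σ = ev x 0 + σ * F x v := by
      intro σ hσ
      have hσ' : 0 ≤ σ := hσ
      simp [ystar, ev, max_eq_left hσ', projIcc_of_right_le _ hσ']
    exact h.congr e (e 0 (by simp))
  have h2 := dini_eq (keyDeriv _ _ _ h1)
  rw [seg_ystar0] at h2
  rw [← h2]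
  simp [driver, dini, star_eq, seg_ystar0]

theorem ac_congr {g h : ℝ → ℝ} {a b : ℝ} (hg : AbsolutelyContinuousOnInterval g a b)
    (e : ∀ t ∈ uIcc a b, h t = g t) : AbsolutelyContinuousOnInterval h a b := by
  rw [absolutelyContinuousOnInterval_iff] at hg ⊢
  intro ε hε
  obtain ⟨δ, hδ, H⟩ := hg ε hε
  refine ⟨δ, hδ, fun E hE hl => ?_⟩
  refine lt_of_eq_of_lt ?_ (H E hE hl)
  apply Finset.sum_congr rfl
  intro i hi
  have := hE.1 i hi
  rw [e _ this.1, e _ this.2]

theorem ac_comp {g : ℝ → ℝ} {F : ℝ → ℝ} {a b : ℝ} {S : Set ℝ} {L : NNReal}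
    (hg : AbsolutelyContinuousOnInterval g a b) (hF : LipschitzOnWith L F S)
    (hm : ∀ t ∈ uIcc a b, g t ∈ S) : AbsolutelyContinuousOnInterval (fun t => F (g t)) a b := by
  rw [absolutelyContinuousOnInterval_iff] at hg ⊢
  intro ε hε
  obtain ⟨δ, hδ, H⟩ := hg (ε / (L + 1)) (by positivity)
  refine ⟨δ, hδ, fun E hE hl => ?_⟩
  have h1 := H E hE hl
  have h2 : ∑ i ∈ Finset.range E.1, dist (F (g (E.2 i).1)) (F (g (E.2 i).2)) ≤
      L * ∑ i ∈ Finset.range E.1, dist (g (E.2 i).1) (g (E.2 i).2) := by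
    rw [Finset.mul_sum]
    apply Finset.sum_le_sum
    intro i hi
    have := hE.1 i hi
    exact hF.dist_le_mul _ (hm _ this.1) _ (hm _ this.2)
  have h3 : 0 ≤ ∑ i ∈ Finset.range E.1, dist (g (E.2 i).1) (g (E.2 i).2) :=
    Finset.sum_nonneg fun _ _ => dist_nonneg
  rw [lt_div_iff₀ (by positivity)] at h1
  nlinarith

theorem ac_comp' {g : ℝ → ℝ} {F : ℝ → ℝ} {a b : ℝ} {U : Set ℝ}
    (hg : AbsolutelyContinuousOnInterval g a b) (hF : LocallyLipschitzOn U F)
    (hm : ∀ t ∈ uIcc a b, g t ∈ U) : AbsolutelyContinuousOnInterval (fun t => F (g t)) a b := by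
  have hc : IsCompact (g '' uIcc a b) := isCompact_uIcc.image_of_continuousOn hg.continuousOn
  obtain ⟨L, hL⟩ := (hF.mono (s := g '' uIcc a b) (by
    rintro _ ⟨t, ht, rfl⟩; exact hm t ht)).exists_lipschitzOnWith_of_compact hc
  exact ac_comp hg hL fun t ht => ⟨t, ht, rfl⟩

theorem V_regular (F : X → ℝ → ℝ) : Regular V F := by
  intro u y c hc hs
  constructor
  · have hy : AbsolutelyContinuousOnInterval y 0 c := by
      have h1 := hs.1.absolutelyContinuousOnInterval_intervalIntegral (c := 0) left_mem_uIcc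
      have h0 : AbsolutelyContinuousOnInterval (fun _ : ℝ => y 0) 0 c :=
        (contDiff_const (𝕜 := ℝ) (n := 1)).contDiffOn.absolutelyContinuousOnInterval
      refine ac_congr (h0.add h1) fun t ht => ?_
      rw [uIcc_of_le hc] at ht
      exact hs.2 t ht
    have hI : AbsolutelyContinuousOnInterval (fun τ => I (seg y τ)) 0 c := by
      apply ContDiffOn.absolutelyContinuousOnInterval
      apply ContDiff.contDiffOn
      rw [contDiff_one_iff_deriv]
      have hd : Differentiable ℝ fun τ => I (seg y τ) := fun t => (I_seg_deriv y t).differentiableAt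
      refine ⟨hd, ?_⟩
      have : deriv (fun τ => I (seg y τ)) =
          fun t => 2000 * I (seg y t) + (y t) ^ 4 - K * (y (t - 1)) ^ 4 :=
        funext fun t => (I_seg_deriv y t).deriv
      rw [this]
      have := hd.continuous
      fun_prop
    have hw := ac_comp' hy (w_contDiff.locallyLipschitz.locallyLipschitzOn (s := univ))
      (fun _ _ => mem_univ _)
    have h1 := (hy.mul hy).add (hw.mul hI)
    have hlog : LocallyLipschitzOn (Ici (0 : ℝ)) (fun z => Real.log (1 + z)) := by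
      intro z hz
      have hz' : 0 ≤ z := hz
      have : ContDiffAt ℝ 1 (fun z => Real.log (1 + z)) z :=
        ContDiffAt.log (by fun_prop) (by positivity)
      obtain ⟨L, S, hS, hL⟩ := this.exists_lipschitzOnWith
      exact ⟨L, S, mem_nhdsWithin_of_mem_nhds hS, hL⟩
    have h2 := ac_comp' h1 hlog (fun t _ => by
      have := w_nonneg (y t); have := I_nonneg (seg y t)
      simp only [Pi.add_apply, Pi.mul_apply, mem_Ici]
      have := mul_self_nonneg (y t)
      positivity)
    refine ac_congr h2 fun t _ => ?_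
    simp [V, V0, ev_seg0, sq]
  · filter_upwards [hs.1.ae_hasDerivAt_integral] with t ht hti
    have h1 := ht (by rw [uIcc_of_le hc]; exact Ico_subset_Icc_self hti) 0 left_mem_uIcc
    have h2 : HasDerivWithinAt y (F (seg y t) (u t)) (Ici t) t := by
      refine (h1.const_add (y 0)).hasDerivWithinAt.congr_of_eventuallyEq ?_
        (hs.2 t (Ico_subset_Icc_self hti))
      filter_upwards [self_mem_nhdsWithin, mem_nhdsWithin_of_mem_nhds (Iio_mem_nhds hti.2)]
        with s h3 h4
      exact hs.2 s ⟨hti.1.trans h3, le_of_lt h4⟩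
    rw [dini_eq (keyDeriv y t _ h2), driver_eq]

end Pool.Agent.H.MP_9da05b_an
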