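import Pool.Agent.H.MP_9da05b_an.A

namespace Pool.Agent.H.MP_9da05b_an
open Set Filter Topology MeasureTheory

noncomputable def al (s : ℝ) : ℝ := s ^ 2 / (1 + s)

theorem diss (x : X) (v : ℝ) : E x (f x v) ≤ -al |ev x 0| + |v| := by
  have hV := V0_nonneg x
  unfold E
  rw [div_le_iff₀ (by positivity)]
  unfold V0 f G
  have hi := I_nonneg x
  have hw0 := w_nonneg (ev x 0)
  have hw1 := w_le_one (ev x 0)
  have hd := dw_nonneg (ev x 0)
  have hK := K_ge
  have h1 := @dw_zero_lo (ev x 0)
  have h2 := @dw_zero_hi (ev x 0)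
  have h3 := @w_zero (ev x 0)
  have h4 := @w_one (ev x 0)
  set a := ev x 0
  set c := ev x (-1)
  set i := I x
  set n := ‖x‖
  set W := w a
  set d := deriv w a
  have ha0 := abs_nonneg a
  have hv0 := abs_nonneg v
  have a1 : al |a| ≤ a ^ 2 := by
    unfold al; rw [div_le_iff₀ (by positivity), sq_abs]; nlinarith [sq_nonneg a]
  have a2 : al |a| ≤ |a| := by
    unfold al; rw [div_le_iff₀ (by positivity)]; nlinarith
  have a3 : 0 ≤ al |a| := by unfold al; positivity
  set A := al |a|
  have hc : 0 ≤ K * c ^ 4 := by positivity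
  have ha2 : 0 ≤ a ^ 2 := by positivity
  have ha4 : 0 ≤ a ^ 4 := by positivity
  have hA : A * (1 + a ^ 2) ≤ a ^ 2 + a ^ 4 := by nlinarith
  rcases lt_or_ge a (1 / 2) with h | h
  · rw [h1 h, h3 h.le, max_eq_right (by linarith)]
    have : 0 ≤ |v| * (1 + a ^ 2) := by positivity
    nlinarith
  rw [abs_of_nonneg (by linarith)] at a2
  have hWi : 0 ≤ W * i := by positivity
  have hAi : A * (W * i) ≤ a * (W * i) := by gcongr
  have hh : (W * i) ≤ 2 * a * (W * i) := by nlinarith
  rcases le_or_gt a 1 with h' | h'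
  · rw [max_eq_right (by linarith)]
    have ha3 : 0 ≤ a ^ 3 := by have : 0 ≤ a := by linarith
                               positivity
    have b1 : 0 ≤ d * i * (a + a ^ 3 + 2001 * W * i) := by
      have : 0 ≤ a := by linarith
      positivity
    have b2 : 0 ≤ |v| * (1 + (a ^ 2 + W * i)) := by positivity
    have b3 : W * a ^ 4 ≤ a ^ 4 := by nlinarith
    have b4 : 0 ≤ W * (K * c ^ 4) := by positivity
    nlinarith
  · have hW := h4 h'.le
    rw [h2 h', max_eq_left (by linarith)]
    rw [hW] at hWi hAi hh ⊢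
    have hvp : max v 0 ≤ |v| := max_le (le_abs_self v) hv0
    have hvp0 : 0 ≤ max v 0 := le_max_right _ _
    have hvm0 : 0 ≤ max (-v) 0 := le_max_right _ _
    set Q := K * c ^ 4 + max v 0 * (1 + a ^ 2 + i) with hQ
    have hQ0 : 0 ≤ Q := by positivity
    have b1 : 2 * a * ((a - 1) * (Q / (2 * (1 + a ^ 2)))) ≤ Q := by
      have : 2 * a * ((a - 1) * (Q / (2 * (1 + a ^ 2)))) = Q * (a * (a - 1) / (1 + a ^ 2)) := by
        field_simp
      rw [this]
      apply mul_le_of_le_one_right hQ0
      rw [div_le_one (by positivity)]; nlinarith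
    have b2 : 0 ≤ 2 * a * ((a - 1) * (max (-v) 0 * (K * (1 + n ^ 4)))) := by
      have : 0 ≤ a - 1 := by linarith
      have : 0 ≤ a := by linarith
      positivity
    have b3 : max v 0 * (1 + a ^ 2 + i) ≤ |v| * (1 + a ^ 2 + i) := by gcongr
    nlinarith

theorem al_Kinf : ClassKinf al := by
  refine ⟨⟨?_, ?_, by simp [al]⟩, ?_⟩
  · apply ContinuousOn.div (by fun_prop) (by fun_prop)
    intro s hs; have : 0 ≤ s := hs; positivity
  · intro s hs t ht hst
    have : 0 ≤ s := hs
    have : 0 ≤ t := ht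
    unfold al
    rw [div_lt_div_iff₀ (by positivity) (by positivity)]
    have : 0 ≤ s * t * (t - s) := by have : 0 ≤ t - s := by linarith
                                     positivity
    nlinarith
  · apply tendsto_atTop_mono' _ _ (tendsto_atTop_add_const_right _ (-1) tendsto_id)
    filter_upwards [eventually_ge_atTop 0] with s hs
    unfold al
    rw [le_div_iff₀ (by positivity)]; simp only [id]; nlinarith

theorem half_al_Kinf : ClassKinf fun s => al s / 2 := by
  obtain ⟨⟨h1, h2, h3⟩, h4⟩ := al_Kinf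
  refine ⟨⟨h1.div_const 2, fun s hs t ht hst => ?_, by simp [h3]⟩, h4.atTop_div_const (by norm_num)⟩
  have := h2 hs ht hst
  simp only; linarith

theorem id_Kinf : ClassKinf fun s => s :=
  ⟨⟨continuousOn_id, strictMonoOn_id, rfl⟩, tendsto_id⟩

theorem chi_K : ClassK fun r => 2 * r + √(2 * r) := by
  refine ⟨by fun_prop, fun s hs t ht hst => ?_, by simp⟩
  have := Real.sqrt_le_sqrt (show 2 * s ≤ 2 * t by linarith)
  simp only; linarith

theorem chi_le {r s : ℝ} (hr : 0 ≤ r) (h : 2 * r + √(2 * r) ≤ s) : r ≤ al s / 2 := by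
  have h1 := Real.sqrt_nonneg (2 * r)
  have h2 := Real.mul_self_sqrt (show 0 ≤ 2 * r by linarith)
  have hs : 0 ≤ s := by linarith
  unfold al
  rw [le_div_iff₀ (by norm_num), le_div_iff₀ (by positivity)]
  nlinarith

theorem log_Kinf (C : ℝ) (hC : 0 ≤ C) : ClassKinf fun s => Real.log (1 + (s ^ 2 + C * s ^ 4)) := by
  refine ⟨⟨?_, fun s hs t ht hst => ?_, by simp⟩, ?_⟩
  · apply ContinuousOn.log (by fun_prop)
    intro s _; positivity
  · have hs' : 0 ≤ s := hs
    apply Real.log_lt_log (by positivity)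
    have h1 : s ^ 2 < t ^ 2 := by gcongr
    have h2 : C * s ^ 4 ≤ C * t ^ 4 := by gcongr
    linarith
  · apply Real.tendsto_log_atTop.comp
    apply tendsto_atTop_mono' _ _ tendsto_id
    filter_upwards [eventually_ge_atTop 0] with s hs
    have : 0 ≤ C * s ^ 4 := by positivity
    simp only [id]; nlinarith

theorem sandwich (x : X) : Real.log (1 + (|ev x 0| ^ 2 + 0 * |ev x 0| ^ 4)) ≤ V x ∧
    V x ≤ Real.log (1 + (‖x‖ ^ 2 + K * ‖x‖ ^ 4)) := by
  have hi := I_nonneg x
  have hw0 := w_nonneg (ev x 0)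
  have hw1 := w_le_one (ev x 0)
  have hV := V0_nonneg x
  constructor
  · apply Real.log_le_log (by positivity)
    have : 0 ≤ w (ev x 0) * I x := by positivity
    unfold V0; rw [sq_abs]; linarith
  · apply Real.log_le_log (by positivity)
    have h1 := I_le x
    have h2 : (ev x 0) ^ 2 ≤ ‖x‖ ^ 2 := by
      rw [← sq_abs]; gcongr; exact abs_ev_le x 0
    have : w (ev x 0) * I x ≤ I x := by nlinarith
    unfold V0; linarith

theorem V_nonneg (x : X) : 0 ≤ V x := Real.log_nonneg (by linarith [V0_nonneg x])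

noncomputable def U (a c i n p : ℝ) : ℝ :=
  if 0 < p - G a c i n 0 then 2 * (1 + a ^ 2) * (p - G a c i n 0) / ((a - 1) * (1 + a ^ 2 + i))
  else (p - G a c i n 0) / ((a - 1) * (K * (1 + n ^ 4)))

theorem G_zero {a : ℝ} (c i n : ℝ) (ha : 2 ≤ a) :
    G a c i n 0 = -(a + a ^ 3) - 2001 * i + (a - 1) * (K * c ^ 4 / (2 * (1 + a ^ 2))) := by
  unfold G
  rw [w_one (by linarith), max_eq_left (by linarith)]; simp

theorem G_inv {a i : ℝ} (c n p : ℝ) (ha : 2 ≤ a) (hi : 0 ≤ i) : G a c i n (U a c i n p) = p := by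
  have hK := K_ge
  have h1 : 0 < a - 1 := by linarith
  have e := G_zero c i n ha
  unfold U
  set g := G a c i n 0
  split_ifs with h
  · have : 0 ≤ 2 * (1 + a ^ 2) * (p - g) / ((a - 1) * (1 + a ^ 2 + i)) := by positivity
    unfold G
    rw [w_one (by linarith), max_eq_left h1.le, max_eq_left this, max_eq_right (by linarith), e]
    field_simp; ring
  · have : (p - g) / ((a - 1) * (K * (1 + n ^ 4))) ≤ 0 :=
      div_nonpos_of_nonpos_of_nonneg (by linarith) (by positivity)
    unfold G
    rw [w_one (by linarith), max_eq_left h1.le, max_eq_right this, max_eq_left (by linarith), e]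
    field_simp; ring

theorem U_neg {a c i n p : ℝ} (ha : 2 ≤ a) (hi : 0 ≤ i) (hc : |c| ≤ n)
    (h : p ≤ G a c i n 0) (hp : -p ≤ K * (1 + n ^ 4) / 2) : |U a c i n p| ≤ 20010 := by
  have hK := K_ge
  have h1 : 0 < a - 1 := by linarith
  have e := G_zero c i n ha
  unfold U
  rw [if_neg (by linarith), abs_div, abs_of_nonpos (by linarith), abs_of_pos (by positivity),
    div_le_iff₀ (by positivity), e]
  have h2 : c ^ 4 ≤ n ^ 4 := by
    have := pow_le_pow_left₀ (abs_nonneg _) hc 4
    rwa [Even.pow_abs (by decide)] at this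
  have h3 : K * c ^ 4 / (2 * (1 + a ^ 2)) ≤ K * (1 + n ^ 4) := by
    rw [div_le_iff₀ (by positivity)]
    have : K * c ^ 4 ≤ K * (1 + n ^ 4) := by gcongr; linarith
    have : 0 ≤ K * (1 + n ^ 4) := by positivity
    nlinarith [sq_nonneg a]
  have h4 : (a - 1) * (K * c ^ 4 / (2 * (1 + a ^ 2))) ≤ (a - 1) * (K * (1 + n ^ 4)) := by gcongr
  have h5 : 0 ≤ a ^ 3 := by have : 0 ≤ a := by linarith
                            positivity
  have h6 : 0 ≤ K * (1 + n ^ 4) := by positivity
  have h7 : K * (1 + n ^ 4) ≤ (a - 1) * (K * (1 + n ^ 4)) := by nlinarith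
  linarith

theorem U_rest {c i n : ℝ} (hi : 0 ≤ i) (hc : |c| ≤ n) : |U 2 c i n 0| ≤ 20010 := by
  have hK := K_ge
  rcases le_or_gt 0 (G 2 c i n 0) with h | h
  · exact U_neg le_rfl hi hc h (by have : 0 ≤ K * (1 + n ^ 4) := by positivity
                                   linarith)
  · have e := G_zero c i n (le_refl (2 : ℝ))
    unfold U
    rw [if_pos (by linarith), abs_of_nonneg (by have : 0 < 0 - G 2 c i n 0 := by linarith
                                                positivity), div_le_iff₀ (by positivity), e]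
    have : 0 ≤ K * c ^ 4 / (2 * (1 + (2 : ℝ) ^ 2)) := by positivity
    nlinarith

end Pool.Agent.H.MP_9da05b_an
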