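import Pool.Agent.H.MP_9da05b_an.B

namespace Pool.Agent.H.MP_9da05b_an
open Set Filter Topology MeasureTheory

noncomputable def dd (P t : ℝ) : ℝ := ‖(t : AddCircle P)‖

theorem dd_lip (P : ℝ) : LipschitzWith 1 (dd P) := by
  apply LipschitzWith.of_dist_le_mul
  intro s t
  unfold dd
  rw [Real.dist_eq, Real.dist_eq]
  refine (abs_norm_sub_norm_le _ _).trans ?_
  rw [← AddCircle.coe_sub]
  simpa using QuotientAddGroup.norm_mk_le_norm (m := s - t) (S := AddSubgroup.zmultiples P)

theorem dd_eq {P : ℝ} (hP : 0 < P) (k : ℤ) {t : ℝ} (h : |t - k * P| ≤ P / 2) :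
    dd P t = |t - k * P| := by
  have h1 : ((t - k * P : ℝ) : AddCircle P) = (t : AddCircle P) := by
    rw [AddCircle.coe_sub]
    have : ((k * P : ℝ) : AddCircle P) = 0 := by
      rw [AddCircle.coe_eq_zero_iff]; exact ⟨k, by simp⟩
    rw [this, sub_zero]
  unfold dd
  rw [← h1, AddCircle.norm_coe_eq_abs_iff _ hP.ne', abs_of_pos hP]
  exact h

theorem dd_ex {P : ℝ} (hP : 0 < P) (t : ℝ) : ∃ k : ℤ, |t - k * P| ≤ P / 2 := by
  refine ⟨round (P⁻¹ * t), ?_⟩
  rw [← AddCircle.norm_eq]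
  simpa [abs_of_pos hP] using AddCircle.norm_le_half_period P (x := (t : AddCircle P)) hP.ne'

theorem dd_per (P t : ℝ) : dd P (t + P) = dd P t := by
  unfold dd; rw [AddCircle.coe_add_period]

noncomputable def per (M : ℝ) : ℝ := 1 + 1 / (30 * M ^ 2)

noncomputable def yy (M : ℝ) : C(ℝ, ℝ) :=
  ⟨fun t => 2 + max (2 * M - 30 * M ^ 3 * dd (per M) t) 0, by
    have := (dd_lip (per M)).continuous; fun_prop⟩

theorem yy_apply (M t : ℝ) : yy M t = 2 + max (2 * M - 30 * M ^ 3 * dd (per M) t) 0 := rfl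

theorem yy_ge (M t : ℝ) : 2 ≤ yy M t := by
  rw [yy_apply]; linarith [le_max_right (2 * M - 30 * M ^ 3 * dd (per M) t) 0]

theorem yy_le {M : ℝ} (hM : 2 ≤ M) (t : ℝ) : yy M t ≤ 3 * M := by
  rw [yy_apply]
  have : 0 ≤ 30 * M ^ 3 * dd (per M) t := by
    have : 0 ≤ dd (per M) t := norm_nonneg _
    have : 0 ≤ M := by linarith
    positivity
  have : max (2 * M - 30 * M ^ 3 * dd (per M) t) 0 ≤ 2 * M := max_le (by linarith) (by linarith)
  linarith

theorem yy_lip {M : ℝ} (hM : 2 ≤ M) : ∃ L, LipschitzWith L (yy M) := by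
  refine ⟨Real.toNNReal (30 * M ^ 3), LipschitzWith.of_dist_le_mul fun s t => ?_⟩
  have h0 : 0 ≤ 30 * M ^ 3 := by have : 0 ≤ M := by linarith
                                 positivity
  rw [Real.coe_toNNReal _ h0, Real.dist_eq, yy_apply, yy_apply, add_sub_add_left_eq_sub]
  refine (abs_max_sub_max_le_abs _ _ _).trans ?_
  have h := (dd_lip (per M)).dist_le_mul s t
  rw [Real.dist_eq] at h
  have e : 2 * M - 30 * M ^ 3 * dd (per M) s - (2 * M - 30 * M ^ 3 * dd (per M) t) =
      -(30 * M ^ 3 * (dd (per M) s - dd (per M) t)) := by ring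
  rw [e, abs_neg, abs_mul, abs_of_nonneg h0]
  apply mul_le_mul_of_nonneg_left _ h0
  simpa using h

theorem per_bd {M : ℝ} (hM : 2 ≤ M) : 1 < per M ∧ per M ≤ 2 ∧ 1 / (30 * M ^ 2) ≤ 1 / 100 ∧
    30 * M ^ 3 * (1 / (30 * M ^ 2)) = M := by
  have h0 : 0 < M := by linarith
  have h1 : 0 < 1 / (30 * M ^ 2) := by positivity
  have h2 : 1 / (30 * M ^ 2) ≤ 1 / 100 :=
    one_div_le_one_div_of_le (by norm_num) (by nlinarith)
  refine ⟨by unfold per; linarith, by unfold per; linarith, h2, by field_simp⟩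

theorem int_le {g : ℝ → ℝ} (hg : Continuous g) {a b C : ℝ} (hab : a ≤ b)
    (h : ∀ s ∈ Icc a b, g s ≤ C) : ∫ s in a..b, g s ≤ (b - a) * C := by
  have := intervalIntegral.integral_mono_on (μ := volume) hab (hg.intervalIntegrable _ _)
    (intervalIntegrable_const (c := C)) h
  simpa using this

theorem I_yy {M : ℝ} (hM : 6 ≤ M) (t : ℝ) : I (seg (yy M) t) ≤ 12 * K * M ^ 2 := by
  obtain ⟨p1, p2, p3, p4⟩ := per_bd (show 2 ≤ M by linarith)
  have hK := K_ge
  have h0 : 0 < M := by linarith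
  set δ := 1 / (30 * M ^ 2) with hδ
  have hδ0 : 0 < δ := by positivity
  set P := per M with hP
  let g : ℝ → ℝ := fun s => (yy M s) ^ 4
  have hg : Continuous g := by unfold g; fun_prop
  have hg0 : ∀ s, 0 ≤ g s := fun s => by unfold g; positivity
  have gi : ∀ a b, IntervalIntegrable g volume a b := fun a b => hg.intervalIntegrable _ _
  have h1 : I (seg (yy M) t) ≤ K * ∫ s in (-1 : ℝ)..0, g (t + s) := by
    rw [← intervalIntegral.integral_const_mul]
    apply intervalIntegral.integral_mono_on (by norm_num) (I_int _ _ _)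
      (Continuous.intervalIntegrable (by fun_prop) _ _)
    intro s hs
    rw [ev_seg _ _ _ hs]
    exact mul_le_mul_of_nonneg_right (exp_le_K hs) (hg0 _)
  have h2 : ∫ s in (-1 : ℝ)..0, g (t + s) = ∫ s in (t - 1)..t, g s := by
    rw [intervalIntegral.integral_comp_add_left g t]; simp [sub_eq_add_neg]
  have h3 : ∫ s in (t - 1)..t, g s ≤ ∫ s in (t - P)..t, g s :=
    intervalIntegral.integral_mono_interval (by linarith) (by linarith) le_rfl
      (Eventually.of_forall hg0) (gi _ _)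
  have hper : Function.Periodic g P := fun s => by
    simp only [g, yy_apply]; rw [dd_per]
  have h4 : ∫ s in (t - P)..t, g s = ∫ s in (-(P / 2))..(P / 2), g s := by
    have := hper.intervalIntegral_add_eq (t - P) (-(P / 2))
    rw [sub_add_cancel] at this
    rw [this]; congr 1; ring
  have rest : ∀ s, |s| ≤ P / 2 → 2 * δ ≤ |s| → g s ≤ 16 := by
    intro s hs hs'
    have e := dd_eq (P := P) (by linarith) 0 (t := s) (by simpa using hs)
    simp only [Int.cast_zero, zero_mul, sub_zero] at e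
    simp only [g, yy_apply]
    rw [← hP, e, max_eq_right]
    · norm_num
    · have : 30 * M ^ 3 * (2 * δ) ≤ 30 * M ^ 3 * |s| := by gcongr
      linarith
  have i1 := int_le hg (a := -(P / 2)) (b := -(2 * δ)) (C := 16) (by linarith) fun s hs =>
    rest s (by rw [abs_of_nonpos (by linarith [hs.2])]; linarith [hs.1])
      (by rw [abs_of_nonpos (by linarith [hs.2])]; linarith [hs.2])
  have i3 := int_le hg (a := 2 * δ) (b := P / 2) (C := 16) (by linarith) fun s hs =>
    rest s (by rw [abs_of_nonneg (by linarith [hs.1])]; linarith [hs.2])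
      (by rw [abs_of_nonneg (by linarith [hs.1])]; linarith [hs.1])
  have i2 := int_le hg (a := -(2 * δ)) (b := 2 * δ) (C := (3 * M) ^ 4) (by linarith) fun s _ => by
    have := yy_ge M s
    exact pow_le_pow_left₀ (by linarith) (yy_le (by linarith) s) 4
  have s1 := intervalIntegral.integral_add_adjacent_intervals (gi (-(P / 2)) (-(2 * δ)))
    (gi (-(2 * δ)) (2 * δ))
  have s2 := intervalIntegral.integral_add_adjacent_intervals (gi (-(P / 2)) (2 * δ))
    (gi (2 * δ) (P / 2))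
  have e5 : (2 * δ - -(2 * δ)) * (3 * M) ^ 4 = 54 / 5 * M ^ 2 := by
    rw [hδ]; field_simp; ring
  have h5 : ∫ s in (-(P / 2))..(P / 2), g s ≤ 12 * M ^ 2 := by nlinarith
  calc _ ≤ K * ∫ s in (-1 : ℝ)..0, g (t + s) := h1
    _ ≤ K * (12 * M ^ 2) := by
      apply mul_le_mul_of_nonneg_left _ (by linarith)
      linarith
    _ = _ := by ring

noncomputable def uu (M t : ℝ) : ℝ :=
  U (yy M t) (yy M (t - 1)) (I (seg (yy M) t)) ‖seg (yy M) t‖ (deriv (yy M) t)

theorem f_uu (M t : ℝ) : f (seg (yy M) t) (uu M t) = deriv (yy M) t := by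
  unfold f uu
  rw [ev_seg0, ev_seg1]
  exact G_inv _ _ _ (yy_ge M t) (I_nonneg _)

theorem seg_cont (y : C(ℝ, ℝ)) : Continuous (seg y) := by
  apply ContinuousMap.continuous_of_continuous_uncurry
  change Continuous fun p : ℝ × Icc (-1 : ℝ) 0 => y (p.1 + p.2)
  fun_prop

theorem uu_meas (M : ℝ) : Measurable (uu M) := by
  have h1 := seg_cont (yy M)
  have h2 : Continuous fun t => I (seg (yy M) t) := I_cont.comp h1
  have h3 : Continuous fun t => G (yy M t) (yy M (t - 1)) (I (seg (yy M) t)) ‖seg (yy M) t‖ 0 := by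
    have h : Continuous fun t : ℝ =>
      (yy M t, yy M (t - 1), I (seg (yy M) t), ‖seg (yy M) t‖, (0 : ℝ)) := by fun_prop
    exact G_locLip.continuous.comp h
  have h4 := measurable_deriv (yy M)
  have m1 : Measurable (yy M) := (yy M).continuous.measurable
  have m2 := h2.measurable
  have m3 := h3.measurable
  have m4 : Measurable fun t => ‖seg (yy M) t‖ := h1.norm.measurable
  unfold uu U
  apply Measurable.ite (measurableSet_lt measurable_const (h4.sub m3))
  · fun_prop
  · fun_prop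

theorem yy_sol {M : ℝ} (hM : 2 ≤ M) (c : ℝ) : IsSol f (uu M) (yy M) c := by
  obtain ⟨L, hL⟩ := yy_lip hM
  have ac : ∀ t, AbsolutelyContinuousOnInterval (yy M) 0 t := fun t =>
    hL.lipschitzOnWith.absolutelyContinuousOnInterval
  unfold IsSol
  simp only [f_uu]
  refine ⟨(ac c).intervalIntegrable_deriv, fun t _ => ?_⟩
  rw [(ac t).integral_deriv_eq_sub]; ring

theorem uu_bd {M : ℝ} (hM : 30000 * K ≤ M) : ∀ᵐ t, |uu M t| ≤ 20010 := by
  have hK := K_ge
  have hM6 : 6 ≤ M := by linarith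
  obtain ⟨p1, p2, p3, p4⟩ := per_bd (show 2 ≤ M by linarith)
  have h0 : 0 < M := by linarith
  set δ := 1 / (30 * M ^ 2) with hδ
  have hδ0 : 0 < δ := by positivity
  have hPδ : per M = 1 + δ := rfl
  set P := per M with hP
  have hP0 : 0 < P := by linarith
  have hc : Set.Countable (⋃ k : ℤ, ({k * P, k * P + 2 * δ, k * P - 2 * δ} : Set ℝ)) :=
    countable_iUnion fun k => (Set.toFinite _).countable
  filter_upwards [hc.ae_notMem volume] with t ht
  simp only [mem_iUnion, not_exists, mem_insert_iff, mem_singleton_iff, not_or] at ht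
  obtain ⟨k, hk⟩ := dd_ex hP0 t
  obtain ⟨n1, n2, n3⟩ := ht k
  have hi0 := I_nonneg (seg (yy M) t)
  have hi := I_yy hM6 t
  have hcn : |yy M (t - 1)| ≤ ‖seg (yy M) t‖ := by
    rw [← ev_seg1]; exact abs_ev_le _ _
  have ha := yy_ge M t
  have ha' := yy_le (show 2 ≤ M by linarith) t
  have hM3 : 0 < M ^ 3 := by positivity
  have hG := G_zero (yy M (t - 1)) (I (seg (yy M) t)) ‖seg (yy M) t‖ ha
  have lo : -(yy M t + (yy M t) ^ 3) - 2001 * I (seg (yy M) t) ≥ -(29 * M ^ 3) := by
    have b1 : (yy M t) ^ 3 ≤ (3 * M) ^ 3 := pow_le_pow_left₀ (by linarith) ha' 3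
    have b2 : 30000 * K * M ^ 2 ≤ M * M ^ 2 := by gcongr
    have b3 : 0 ≤ K * M ^ 2 := by positivity
    have b4 : 2001 * M ^ 2 ≤ K * M ^ 2 := by gcongr
    nlinarith
  have psi0 : 0 ≤ (yy M t - 1) * (K * (yy M (t - 1)) ^ 4 / (2 * (1 + (yy M t) ^ 2))) := by
    have : 0 ≤ yy M t - 1 := by linarith
    positivity
  have hKn : 0 ≤ K * (1 + ‖seg (yy M) t‖ ^ 4) / 2 := by positivity
  unfold uu
  rcases lt_or_ge (2 * δ) |t - k * P| with h | h
  · have hd : 2 * δ < dd P t := by rw [dd_eq hP0 k hk]; exact h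
    have hev : (yy M : ℝ → ℝ) =ᶠ[𝓝 t] fun _ => 2 := by
      filter_upwards [(dd_lip P).continuous.continuousAt.eventually (lt_mem_nhds hd)] with s hs
      rw [yy_apply, ← hP, max_eq_right]
      · norm_num
      · have : 30 * M ^ 3 * (2 * δ) ≤ 30 * M ^ 3 * dd P s := by gcongr
        linarith
    rw [hev.deriv_eq, hev.eq_of_nhds]
    simpa using U_rest hi0 hcn
  obtain ⟨h1, h2⟩ := abs_le.1 h
  rcases lt_or_gt_of_ne n1 with h3 | h3
  · have h4 : k * P - 2 * δ < t := lt_of_le_of_ne (by linarith) (Ne.symm n3)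
    have hev : (yy M : ℝ → ℝ) =ᶠ[𝓝 t] fun s => 2 + (2 * M - 30 * M ^ 3 * (k * P - s)) := by
      filter_upwards [Ioo_mem_nhds h4 h3] with s hs
      have e : |s - k * P| = k * P - s := by rw [abs_of_neg (by linarith [hs.2])]; ring
      rw [yy_apply, ← hP, dd_eq hP0 k (by rw [e]; linarith [hs.1]), e, max_eq_left]
      have : 30 * M ^ 3 * (k * P - s) ≤ 30 * M ^ 3 * (2 * δ) := by gcongr; linarith [hs.1]
      linarith
    have hder : deriv (yy M) t = 30 * M ^ 3 := by
      rw [hev.deriv_eq]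
      have := ((((hasDerivAt_id t).const_sub (k * P)).const_mul (30 * M ^ 3)).const_sub
        (2 * M)).const_add 2
      simpa using this.deriv
    rw [hder]
    apply U_neg ha hi0 hcn _ (by linarith)
    have hcM : M ≤ yy M (t - 1) := by
      have e : |t - 1 - ((k - 1 : ℤ) : ℝ) * P| ≤ δ := by
        push_cast
        rw [abs_le, hPδ]; rw [hPδ] at h3 h4; constructor <;> nlinarith
      rw [yy_apply, ← hP, dd_eq hP0 (k - 1) (by linarith)]
      have : 30 * M ^ 3 * |t - 1 - ((k - 1 : ℤ) : ℝ) * P| ≤ 30 * M ^ 3 * δ := by gcongr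
      have := le_max_left (2 * M - 30 * M ^ 3 * |t - 1 - ((k - 1 : ℤ) : ℝ) * P|) 0
      linarith
    have b1 : 59 * M ^ 3 ≤
        (yy M t - 1) * (K * (yy M (t - 1)) ^ 4 / (2 * (1 + (yy M t) ^ 2))) := by
      rw [← mul_div_assoc, le_div_iff₀ (by positivity)]
      have c1 : M ^ 4 ≤ (yy M (t - 1)) ^ 4 := pow_le_pow_left₀ h0.le hcM 4
      have c2 : 2001 * M ^ 4 ≤ K * (yy M (t - 1)) ^ 4 :=
        mul_le_mul hK c1 (by positivity) (by linarith)
      set a := yy M t
      have c3 : (a - 1) * (2001 * M ^ 4) ≤ (a - 1) * (K * (yy M (t - 1)) ^ 4) :=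
        mul_le_mul_of_nonneg_left c2 (by linarith)
      refine le_trans ?_ c3
      have c4 : 2 * (1 + a ^ 2) ≤ 24 * M * (a - 1) := by nlinarith
      have c5 : 59 * M ^ 3 * (2 * (1 + a ^ 2)) ≤ 59 * M ^ 3 * (24 * M * (a - 1)) := by gcongr
      have c6 : 0 ≤ (a - 1) * M ^ 4 := by have : 0 ≤ a - 1 := by linarith
                                          positivity
      nlinarith
    rw [hG]; linarith
  · have h4 : t < k * P + 2 * δ := lt_of_le_of_ne (by linarith) n2
    have hev : (yy M : ℝ → ℝ) =ᶠ[𝓝 t] fun s => 2 + (2 * M - 30 * M ^ 3 * (s - k * P)) := by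
      filter_upwards [Ioo_mem_nhds h3 h4] with s hs
      have e : |s - k * P| = s - k * P := abs_of_pos (by linarith [hs.1])
      rw [yy_apply, ← hP, dd_eq hP0 k (by rw [e]; linarith [hs.2]), e, max_eq_left]
      have : 30 * M ^ 3 * (s - k * P) ≤ 30 * M ^ 3 * (2 * δ) := by gcongr; linarith [hs.2]
      linarith
    have hder : deriv (yy M) t = -(30 * M ^ 3) := by
      rw [hev.deriv_eq]
      have := ((((hasDerivAt_id t).sub_const (k * P)).const_mul (30 * M ^ 3)).const_sub
        (2 * M)).const_add 2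
      simpa using this.deriv
    rw [hder]
    apply U_neg ha hi0 hcn (by rw [hG]; linarith)
    have hn : M ≤ ‖seg (yy M) t‖ := by
      have e := abs_ev_le (seg (yy M) t) (k * P - t)
      rw [ev_seg _ _ _ ⟨by linarith, by linarith⟩, yy_apply, ← hP,
        dd_eq hP0 k (by simp; linarith)] at e
      simp only [add_sub_cancel, sub_self, abs_zero, mul_zero, sub_zero] at e
      rw [max_eq_left (by linarith), abs_of_nonneg (by linarith)] at e
      linarith
    have c1 : M ^ 4 ≤ ‖seg (yy M) t‖ ^ 4 := pow_le_pow_left₀ h0.le hn 4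
    have c2 : 2001 * (1 + ‖seg (yy M) t‖ ^ 4) ≤ K * (1 + ‖seg (yy M) t‖ ^ 4) := by gcongr
    have c3 : M ^ 3 ≤ M ^ 4 := pow_le_pow_right₀ (by linarith) (by norm_num)
    linarith

theorem not_ISS : ¬ ISS f := by
  rintro ⟨β, γ, hβ, -, H⟩
  have hK := K_ge
  set M := max (30000 * K) (γ 20010) with hM
  have hM1 : 30000 * K ≤ M := le_max_left _ _
  have hM2 : γ 20010 ≤ M := le_max_right _ _
  have hM3 : 2 ≤ M := by linarith
  obtain ⟨p1, -, -, -⟩ := per_bd hM3
  have h := H (uu M) 20010 (yy M) (uu_meas M) (by norm_num)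
    (by filter_upwards [uu_bd hM1] with t ht _ using ht) (fun c _ => yy_sol hM3 c)
  have ht := (hβ.2 ‖seg (yy M) 0‖ (norm_nonneg _)).2.eventually (gt_mem_nhds one_pos)
  obtain ⟨T, hT⟩ := eventually_atTop.1 ht
  obtain ⟨k, hk⟩ := exists_nat_ge T
  have hk0 : (0 : ℝ) ≤ k := Nat.cast_nonneg k
  have h1 := h (k * per M) (by positivity)
  have h2 := hT (k * per M) (by nlinarith)
  rw [yy_apply, dd_eq (by linarith) (k : ℤ) (by simp; linarith)] at h1
  simp only [Int.cast_natCast, sub_self, abs_zero, mul_zero, sub_zero] at h1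
  rw [max_eq_left (by linarith), abs_of_nonneg (by linarith)] at h1
  linarith

end Pool.Agent.H.MP_9da05b_an
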