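import Mathlib

namespace Pool.Agent.H.MP_9da05b_an
open Set Filter Topology MeasureTheory

/-- State space `C([-1,0], ℝ)` with the sup norm. -/
abbrev X : Type := C(Icc (-1 : ℝ) 0, ℝ)

theorem neg_one_le : (-1 : ℝ) ≤ 0 := by norm_num

/-- The value `x(s)` for `s ∈ [-1,0]` (clamped to the end points outside). -/
noncomputable def ev (x : X) (s : ℝ) : ℝ := x (projIcc (-1) 0 neg_one_le s)

theorem cont_shift (t : ℝ) : Continuous fun s : Icc (-1 : ℝ) 0 => t + (s : ℝ) := by fun_prop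

/-- The history segment `s ↦ y (t + s)`. -/
def seg (y : C(ℝ, ℝ)) (t : ℝ) : X := y.comp ⟨fun s => t + (s : ℝ), cont_shift t⟩

theorem cont_ev (x : X) : Continuous (ev x) := x.continuous.comp continuous_projIcc

theorem cont_star (x : X) (p h : ℝ) :
    Continuous fun s : Icc (-1 : ℝ) 0 => ev x (s + h) + max ((s : ℝ) + h) 0 * p := by
  have := cont_ev x
  fun_prop

/-- The state `x` shifted by `h` and continued linearly with slope `p`. -/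
noncomputable def star (x : X) (p h : ℝ) : X :=
  ⟨fun s => ev x (s + h) + max ((s : ℝ) + h) 0 * p, cont_star x p h⟩

/-- Upper right Dini derivative. -/
noncomputable def dini (w : ℝ → ℝ) (t : ℝ) : EReal :=
  limsup (fun h : ℝ => (((w (t + h) - w t) / h : ℝ) : EReal)) (𝓝[>] 0)

/-- Driver derivative. -/
noncomputable def driver (V : X → ℝ) (f : X → ℝ → ℝ) (x : X) (v : ℝ) : EReal :=
  limsup (fun h : ℝ => (((V (star x (f x v) h) - V x) / h : ℝ) : EReal)) (𝓝[>] 0)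

def ClassK (g : ℝ → ℝ) : Prop :=
  ContinuousOn g (Ici 0) ∧ StrictMonoOn g (Ici 0) ∧ g 0 = 0

def ClassKinf (g : ℝ → ℝ) : Prop := ClassK g ∧ Tendsto g atTop atTop

def ClassKL (β : ℝ → ℝ → ℝ) : Prop :=
  (∀ t, 0 ≤ t → ClassK fun r => β r t) ∧
    ∀ r, 0 ≤ r → AntitoneOn (β r) (Ici 0) ∧ Tendsto (β r) atTop (𝓝 0)

/-- `y` solves `y'(t) = f (y_t, u t)` on `[0, c]` (integral form). -/
def IsSol (f : X → ℝ → ℝ) (u : ℝ → ℝ) (y : C(ℝ, ℝ)) (c : ℝ) : Prop :=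
  IntervalIntegrable (fun τ => f (seg y τ) (u τ)) volume 0 c ∧
    ∀ t ∈ Icc 0 c, y t = y 0 + ∫ τ in (0 : ℝ)..t, f (seg y τ) (u τ)

/-- Standing assumptions on the right-hand side. -/
def Admissible (f : X → ℝ → ℝ) : Prop :=
  Continuous (fun p : X × ℝ => f p.1 p.2) ∧
    (∀ R : ℝ, ∃ L : ℝ, ∀ x x' : X, ∀ v : ℝ, ‖x‖ ≤ R → ‖x'‖ ≤ R → |v| ≤ R →
      |f x v - f x' v| ≤ L * ‖x - x'‖) ∧ f 0 0 = 0

/-- The regularity condition on `V`. -/
def Regular (V : X → ℝ) (f : X → ℝ → ℝ) : Prop :=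
  ∀ (u : ℝ → ℝ) (y : C(ℝ, ℝ)) (c : ℝ), 0 ≤ c → IsSol f u y c →
    AbsolutelyContinuousOnInterval (fun t => V (seg y t)) 0 c ∧
      ∀ᵐ t, t ∈ Ico 0 c → dini (fun τ => V (seg y τ)) t = driver V f (seg y t) (u t)

/-- The ISS estimate along all global solutions. -/
def ISS (f : X → ℝ → ℝ) : Prop :=
  ∃ β γ, ClassKL β ∧ ClassKinf γ ∧
    ∀ (u : ℝ → ℝ) (r : ℝ) (y : C(ℝ, ℝ)), Measurable u → 0 ≤ r → (∀ᵐ t, 0 ≤ t → |u t| ≤ r) →
      (∀ c, 0 ≤ c → IsSol f u y c) → ∀ t, 0 ≤ t → |y t| ≤ β ‖seg y 0‖ t + γ r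

end Pool.Agent.H.MP_9da05b_an
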